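import Pool.Agent.Helper52.SR.Tsen

/-!
# SR-C1b: norms are surjective over function fields of one variable
-/

set_option autoImplicit false
open scoped Pointwise
open MvPolynomial

namespace Pool.Agent.Helper42.SR

/-- coefficientwise application of a linear functional -/
noncomputable def coefMap {K E σ : Type} [Field K] [Field E] [Algebra K E] (f : E →ₗ[K] K)
    (Q : MvPolynomial σ E) : MvPolynomial σ K :=
  Q.support.sum fun m => monomial m (f (Q.coeff m))

theorem eval_coefMap {K E σ : Type} [Field K] [Field E] [Algebra K E] (f : E →ₗ[K] K)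
    (Q : MvPolynomial σ E) (x : σ → K) :
    eval x (coefMap f Q) = f (eval (fun i => algebraMap K E (x i)) Q) := by
  classical
  unfold coefMap
  rw [map_sum, eval_eq, map_sum]
  refine Finset.sum_congr rfl fun m _ => ?_
  rw [eval_monomial]
  have h : (∏ i ∈ m.support, (algebraMap K E (x i)) ^ m i) =
      algebraMap K E (m.prod fun n e => x n ^ e) := by
    rw [Finsupp.prod, map_prod]
    exact Finset.prod_congr rfl fun i _ => (map_pow _ _ _).symm
  rw [h, mul_comm (Q.coeff m), ← Algebra.smul_def, map_smul, smul_eq_mul, mul_comm]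

theorem totalDegree_coefMap {K E σ : Type} [Field K] [Field E] [Algebra K E] (f : E →ₗ[K] K)
    (Q : MvPolynomial σ E) : (coefMap f Q).totalDegree ≤ Q.totalDegree := by
  unfold coefMap
  refine (totalDegree_finsetSum _ _).trans (Finset.sup_le fun m hm => ?_)
  refine (totalDegree_monomial_le _ _).trans ?_
  exact le_totalDegree hm

theorem totalDegree_det {E σ : Type} [Field E] {n : ℕ} (M : Matrix (Fin n) (Fin n) (MvPolynomial σ E))
    (hM : ∀ i j, (M i j).totalDegree ≤ 1) : M.det.totalDegree ≤ n := by
  rw [Matrix.det_apply]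
  refine (totalDegree_finsetSum _ _).trans (Finset.sup_le fun τ _ => ?_)
  have h1 : (Equiv.Perm.sign τ • ∏ i, M (τ i) i).totalDegree ≤ (∏ i, M (τ i) i).totalDegree := by
    rcases Int.units_eq_one_or (Equiv.Perm.sign τ) with h | h
    · rw [h, one_smul]
    · rw [h, Units.neg_smul, one_smul, totalDegree_neg]
  refine h1.trans ((totalDegree_finsetProd _ _).trans ?_)
  refine (Finset.sum_le_card_nsmul _ _ 1 fun i _ => hM _ _).trans ?_
  simp

end Pool.Agent.Helper42.SR

namespace Pool.Agent.Helper54.SR

open Pool.Agent.Helper42.SR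

theorem norm_surjective {k E E₁ : Type} [Field k] [IsAlgClosed k] [Field E] [Field E₁]
    [Algebra (RatFunc k) E] [FiniteDimensional (RatFunc k) E] [Algebra E E₁]
    [FiniteDimensional E E₁] (a : E) : ∃ x : E₁, Algebra.norm E x = a := by
  classical
  set n := Module.finrank E E₁ with hn
  set d := Module.finrank (RatFunc k) E with hd
  have hdpos : 0 < d := Module.finrank_pos
  let b : Module.Basis (Fin n) E E₁ := Module.finBasis E E₁
  let c : Module.Basis (Fin d) (RatFunc k) E := Module.finBasis (RatFunc k) E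
  let e : Fin (n + 1) × Fin d ≃ Fin ((n + 1) * d) := finProdFinEquiv
  -- linear forms
  let L : Fin (n + 1) → MvPolynomial (Fin ((n + 1) * d)) E := fun i =>
    ∑ j, X (e (i, j)) * C (c j)
  have hLdeg : ∀ i, (L i).totalDegree ≤ 1 := by
    intro i
    refine (totalDegree_finsetSum _ _).trans (Finset.sup_le fun j _ => ?_)
    refine (totalDegree_mul _ _).trans ?_
    rw [totalDegree_X, totalDegree_C]
  let M : Matrix (Fin n) (Fin n) (MvPolynomial (Fin ((n + 1) * d)) E) := fun p q =>
    ∑ i : Fin n, L i.succ * C (Algebra.leftMulMatrix b (b i) p q)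
  have hMdeg : ∀ p q, (M p q).totalDegree ≤ 1 := by
    intro p q
    refine (totalDegree_finsetSum _ _).trans (Finset.sup_le fun i _ => ?_)
    refine (totalDegree_mul _ _).trans ?_
    rw [totalDegree_C, add_zero]
    exact hLdeg _
  let Q : MvPolynomial (Fin ((n + 1) * d)) E := M.det - C a * L 0 ^ n
  have hQdeg : Q.totalDegree ≤ n := by
    refine (totalDegree_sub _ _).trans (max_le (totalDegree_det M hMdeg) ?_)
    refine (totalDegree_mul _ _).trans ?_
    rw [totalDegree_C, zero_add]
    refine (totalDegree_pow _ _).trans ?_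
    calc n * (L 0).totalDegree ≤ n * 1 := Nat.mul_le_mul_left _ (hLdeg 0)
      _ = n := mul_one n
  -- values
  let V : (Fin ((n + 1) * d) → RatFunc k) → Fin (n + 1) → E := fun x i =>
    ∑ j, algebraMap (RatFunc k) E (x (e (i, j))) * c j
  have hL : ∀ (x : Fin ((n + 1) * d) → RatFunc k) (i : Fin (n + 1)),
      eval (fun i => algebraMap (RatFunc k) E (x i)) (L i) = V x i := by
    intro x i
    simp only [L, V, map_sum, map_mul, eval_X, eval_C]
  let Y : (Fin ((n + 1) * d) → RatFunc k) → E₁ := fun x => ∑ i : Fin n, V x i.succ • b i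
  have hM : ∀ (x : Fin ((n + 1) * d) → RatFunc k),
      eval (fun i => algebraMap (RatFunc k) E (x i)) M.det = Algebra.norm E (Y x) := by
    intro x
    rw [RingHom.map_det, Algebra.norm_eq_matrix_det b]
    congr 1
    ext p q
    simp only [RingHom.mapMatrix_apply, Matrix.map_apply, M, map_sum, map_mul, eval_C, hL, Y,
      map_smul]
    rw [Matrix.sum_apply]
    simp only [Matrix.smul_apply, smul_eq_mul]
  have hQ : ∀ (x : Fin ((n + 1) * d) → RatFunc k),
      eval (fun i => algebraMap (RatFunc k) E (x i)) Q = Algebra.norm E (Y x) - a * V x 0 ^ n := by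
    intro x
    simp only [Q, map_sub, map_mul, map_pow, eval_C, hM, hL]
  have hn0 : 0 < n := Module.finrank_pos
  obtain ⟨x, hx0, hx⟩ := tsen_system (k := k) (N := (n + 1) * d) (m := d) (n := n)
    (fun t => coefMap (c.coord t) Q) (fun t => (totalDegree_coefMap _ _).trans hQdeg)
    (fun t => by
      have h0 : (0 : Fin ((n + 1) * d) → RatFunc k) = fun _ => 0 := rfl
      rw [eval_coefMap, hQ]
      have hV : ∀ i, V 0 i = 0 := by
        intro i
        simp only [V, Pi.zero_apply, map_zero, zero_mul, Finset.sum_const_zero]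
      have hY : Y 0 = 0 := by
        simp only [Y, hV, zero_smul, Finset.sum_const_zero]
      rw [hY, hV, Algebra.norm_zero, zero_pow hn0.ne', mul_zero, sub_zero, map_zero])
    (by nlinarith)
  have hzero : Algebra.norm E (Y x) = a * V x 0 ^ n := by
    have h1 : ∀ t, c.coord t (Algebra.norm E (Y x) - a * V x 0 ^ n) = 0 := by
      intro t
      rw [← hQ, ← eval_coefMap]
      exact hx t
    have h2 : Algebra.norm E (Y x) - a * V x 0 ^ n = 0 := by
      apply (c.repr).injective
      ext t
      simpa using h1 t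
    exact sub_eq_zero.1 h2
  have hVz : ∀ i, V x i = 0 → ∀ j, x (e (i, j)) = 0 := by
    intro i hi j
    have h1 : ∑ j, x (e (i, j)) • c j = 0 := by
      rw [← hi]
      exact Finset.sum_congr rfl fun j _ => by rw [Algebra.smul_def]
    exact (Fintype.linearIndependent_iff.1 c.linearIndependent) _ h1 j
  by_cases hz : V x 0 = 0
  · exfalso
    rw [hz, zero_pow hn0.ne', mul_zero] at hzero
    have hY : Y x = 0 := Algebra.norm_eq_zero_iff.1 hzero
    have hi : ∀ i : Fin n, V x i.succ = 0 :=
      (Fintype.linearIndependent_iff.1 b.linearIndependent) _ hY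
    apply hx0
    funext q
    obtain ⟨⟨i, j⟩, rfl⟩ := e.surjective q
    refine Fin.cases (hVz 0 hz j) (fun i => hVz _ (hi i) j) i
  · refine ⟨algebraMap E E₁ (V x 0)⁻¹ * Y x, ?_⟩
    rw [map_mul, hzero, Algebra.norm_algebraMap]
    rw [← hn, mul_comm a, ← mul_assoc, ← mul_pow, inv_mul_cancel₀ hz, one_pow, one_mul]

end Pool.Agent.Helper54.SR
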